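import Pool.Agent.H41.GM.Stm
set_option autoImplicit false

/-!
# Project GM, module UPP: the convergent case
-/

namespace Pool.Agent.H82.GM

open MeasureTheory Filter Topology ProbabilityTheory Pool.Agent.H41.GM

theorem one_le_log {j : ℕ} (hj : 1 ≤ j) : 1 ≤ Real.log ((j : ℝ) + 2) := by
  have hj' : (1 : ℝ) ≤ j := by exact_mod_cast hj
  rw [Real.le_log_iff_exp_le (by positivity)]
  have := Real.exp_one_lt_d9
  linarith

theorem one_le_sc {j : ℕ} (hj : 1 ≤ j) : 1 ≤ sc j := one_le_pow₀ (one_le_log hj)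

theorem sc_pos (j : ℕ) : 0 < sc j := by
  unfold sc
  have : 0 < Real.log ((j : ℝ) + 2) := Real.log_pos (by
    have : (0 : ℝ) ≤ j := Nat.cast_nonneg j
    linarith)
  positivity

/-- the scale at `m` is at most `1296` times the scale at `j` if `m ≤ C j sc j`, `C + 1 ≤ j + 2` -/
theorem sc_le {C j m : ℕ} (hj : 1 ≤ j) (hC : C ≤ j) (hm : (m : ℝ) ≤ C * (j * sc j)) :
    sc m ≤ 1296 * sc j := by
  have hj' : (1 : ℝ) ≤ j := by exact_mod_cast hj
  have hC' : (C : ℝ) ≤ j := by exact_mod_cast hC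
  have hC0 : (0 : ℝ) ≤ C := Nat.cast_nonneg C
  have hm0 : (0 : ℝ) ≤ m := Nat.cast_nonneg m
  have hl0 : 0 ≤ Real.log ((j : ℝ) + 2) := zero_le_one.trans (one_le_log hj)
  have hl1 : Real.log ((j : ℝ) + 2) ≤ (j : ℝ) + 2 := by
    have := Real.log_le_sub_one_of_pos (show (0 : ℝ) < (j : ℝ) + 2 by positivity)
    linarith
  have hs : sc j ≤ ((j : ℝ) + 2) ^ 4 := pow_le_pow_left₀ hl0 hl1 4
  have h2 : (m : ℝ) + 2 ≤ ((j : ℝ) + 2) ^ 6 := by
    have h3 : (C : ℝ) * (j * sc j) ≤ (j : ℝ) * (j * ((j : ℝ) + 2) ^ 4) :=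
      mul_le_mul hC' (mul_le_mul_of_nonneg_left hs (by linarith))
        (mul_nonneg (by linarith) (sc_pos j).le) (by linarith)
    have h4 : (j : ℝ) * (j * ((j : ℝ) + 2) ^ 4) + 2 ≤ ((j : ℝ) + 2) ^ 6 := by
      have h5 : (1 : ℝ) ≤ ((j : ℝ) + 2) ^ 4 := one_le_pow₀ (by linarith)
      have h6 : ((j : ℝ) + 2) ^ 6 - (j : ℝ) * (j * ((j : ℝ) + 2) ^ 4) =
          ((j : ℝ) + 2) ^ 4 * (4 * j + 4) := by ring
      have h7 : (1 : ℝ) * 4 ≤ ((j : ℝ) + 2) ^ 4 * (4 * j + 4) :=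
        mul_le_mul h5 (by linarith) (by norm_num) (by positivity)
      linarith
    linarith
  have h6 : Real.log ((m : ℝ) + 2) ≤ 6 * Real.log ((j : ℝ) + 2) := by
    calc Real.log ((m : ℝ) + 2) ≤ Real.log (((j : ℝ) + 2) ^ 6) :=
          Real.log_le_log (by positivity) h2
      _ = 6 * Real.log ((j : ℝ) + 2) := by rw [Real.log_pow]; norm_num
  have h7 : 0 ≤ Real.log ((m : ℝ) + 2) := Real.log_nonneg (by linarith)
  calc sc m ≤ (6 * Real.log ((j : ℝ) + 2)) ^ 4 := pow_le_pow_left₀ h7 h6 4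
    _ = 1296 * sc j := by unfold sc; ring

/-- `(j sc j) ^ (4 / 5) = sc j * aa j` -/
theorem rpow_eq {j : ℕ} (hj : 1 ≤ j) :
    ((j : ℝ) * sc j) ^ (4 / 5 : ℝ) = sc j * aa j := by
  have hj' : (0 : ℝ) < j := by exact_mod_cast hj
  have hl : 0 < Real.log ((j : ℝ) + 2) := zero_lt_one.trans_le (one_le_log hj)
  set L := Real.log ((j : ℝ) + 2) with hL
  have h1 : (j : ℝ) * sc j = (j / L) * L ^ (5 : ℝ) := by
    have : L ^ (5 : ℝ) = L ^ 5 := by
      rw [show (5 : ℝ) = ((5 : ℕ) : ℝ) by norm_num, Real.rpow_natCast]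
    rw [this]
    unfold sc
    rw [← hL]
    field_simp
  rw [h1, Real.mul_rpow (by positivity) (by positivity), ← Real.rpow_mul hl.le]
  have h2 : L ^ ((5 : ℝ) * (4 / 5)) = sc j := by
    rw [show (5 : ℝ) * (4 / 5) = ((4 : ℕ) : ℝ) by norm_num, Real.rpow_natCast]
    rfl
  rw [h2]
  unfold aa
  rw [← hL, mul_comm]

/-- the height -/
noncomputable def ht (C j : ℕ) : ℕ := ⌊4 * ((j : ℝ) * sc j / C) ^ (4 / 5 : ℝ)⌋₊

/-- the constant -/
noncomputable def cc (C : ℕ) : ℝ := 3 / (1296 * (C : ℝ) ^ (4 / 5 : ℝ))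

theorem cc_pos {C : ℕ} (hC : 1 ≤ C) : 0 < cc C := by
  have : (0 : ℝ) < C := by exact_mod_cast hC
  unfold cc
  positivity

theorem cc_le {C j m : ℕ} (hC : 1 ≤ C) (hj : C ≤ j) (hm : (m : ℝ) ≤ C * (j * sc j)) :
    cc C * aa j ≤ (ht C j : ℝ) / sc m := by
  have hj1 : 1 ≤ j := hC.trans hj
  have hC0 : (0 : ℝ) < C := by exact_mod_cast hC
  have hj0 : (0 : ℝ) < j := by exact_mod_cast hj1
  have hCj : (C : ℝ) ≤ j := by exact_mod_cast hj
  have hs := sc_pos j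
  have h1 : (1 : ℝ) ≤ (j : ℝ) * sc j / C := by
    rw [le_div_iff₀ hC0, one_mul]
    calc (C : ℝ) ≤ j := hCj
      _ = j * 1 := (mul_one _).symm
      _ ≤ j * sc j := mul_le_mul_of_nonneg_left (one_le_sc hj1) hj0.le
  have h2 : (1 : ℝ) ≤ ((j : ℝ) * sc j / C) ^ (4 / 5 : ℝ) := Real.one_le_rpow h1 (by norm_num)
  have h3 : 3 * ((j : ℝ) * sc j / C) ^ (4 / 5 : ℝ) ≤ ht C j := by
    have := Nat.lt_floor_add_one (4 * ((j : ℝ) * sc j / C) ^ (4 / 5 : ℝ))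
    unfold ht
    linarith
  have h4 : ((j : ℝ) * sc j / C) ^ (4 / 5 : ℝ) = sc j * aa j / (C : ℝ) ^ (4 / 5 : ℝ) := by
    rw [Real.div_rpow (by positivity) hC0.le, rpow_eq hj1]
  have h5 : cc C * aa j = 3 * ((j : ℝ) * sc j / C) ^ (4 / 5 : ℝ) / (1296 * sc j) := by
    rw [h4]
    unfold cc
    have : (0 : ℝ) < (C : ℝ) ^ (4 / 5 : ℝ) := by positivity
    field_simp
  rw [h5]
  exact div_le_div₀ (Nat.cast_nonneg _) h3 (sc_pos m) (sc_le hj1 hj hm)

variable {Ω : Type} [mΩ : MeasurableSpace Ω]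

/-- `q j` is of the right order -/
def GG (q : ℕ → Ω → ℕ) (C j : ℕ) : Set Ω :=
  {ω | (j : ℝ) * sc j ≤ C * q j ω ∧ (q j ω : ℝ) ≤ C * (j * sc j)}

theorem meas_GG {ℱ : Filtration ℕ mΩ} {q : ℕ → Ω → ℕ} (hq : ∀ j, Measurable[ℱ j] (q j))
    (C j : ℕ) : MeasurableSet[ℱ j] (GG q C j) :=
  hq j (show MeasurableSet {n : ℕ | (j : ℝ) * sc j ≤ C * n ∧ (n : ℝ) ≤ C * (j * sc j)} from
    MeasurableSet.of_discrete)

theorem prob_le {P : Measure Ω} [IsProbabilityMeasure P] {ℱ : Filtration ℕ mΩ}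
    {q : ℕ → Ω → ℕ} {T : ℝ → ℝ} (hT : Antitone T) (hT0 : ∀ t, 0 ≤ T t)
    (hq : ∀ j, Measurable[ℱ j] (q j)) (hs : ∀ ω, StrictMono fun j => q j ω)
    {c₂ : ℝ} (hc₂ : 0 < c₂) {M : ℕ}
    (ht' : ∀ j m h : ℕ, M ≤ m → ∀ B : Set Ω, MeasurableSet[ℱ j] B → B ⊆ {ω | q j ω = m} →
      P.real (B ∩ {ω | m + h < q (j + 1) ω}) ≤ c₂ * T (h / sc m) * P.real B)
    {C j : ℕ} (hC : 1 ≤ C) (hj : C ≤ j) (hM : M ≤ j) :
    P.real (GG q C j ∩ {ω | q j ω + ht C j < q (j + 1) ω}) ≤ c₂ * T (cc C * aa j) := by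
  set N : ℕ := ⌊(C : ℝ) * (j * sc j)⌋₊ with hN
  set B : ℕ → Set Ω := fun m => GG q C j ∩ {ω | q j ω = m} with hB
  have hBm : ∀ m, MeasurableSet[ℱ j] (B m) := fun m =>
    @MeasurableSet.inter _ (ℱ j) _ _ (meas_GG hq C j) (hq j (MeasurableSet.singleton m))
  have hBm' : ∀ m, MeasurableSet (B m) := fun m => ℱ.le j _ (hBm m)
  have hsub : GG q C j ∩ {ω | q j ω + ht C j < q (j + 1) ω} ⊆
      ⋃ m ∈ Finset.range (N + 1), (B m ∩ {ω | m + ht C j < q (j + 1) ω}) := by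
    rintro ω ⟨h1, h2⟩
    simp only [Set.mem_iUnion]
    refine ⟨q j ω, Finset.mem_range.2 ?_, ⟨h1, rfl⟩, h2⟩
    exact Nat.lt_succ_of_le (Nat.le_floor h1.2)
  have hterm : ∀ m, P.real (B m ∩ {ω | m + ht C j < q (j + 1) ω}) ≤
      c₂ * T (cc C * aa j) * P.real (B m) := by
    intro m
    rcases (B m).eq_empty_or_nonempty with h0 | ⟨ω, h1, h2⟩
    · rw [h0]; simp
    · have h2' : q j ω = m := h2
      have hjm : j ≤ m := by rw [← h2']; exact (hs ω).le_apply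
      have hmC : (m : ℝ) ≤ C * (j * sc j) := by rw [← h2']; exact h1.2
      refine (ht' j m (ht C j) (hM.trans hjm) (B m) (hBm m) fun ω h => h.2).trans ?_
      exact mul_le_mul_of_nonneg_right
        (mul_le_mul_of_nonneg_left (hT (cc_le hC hj hmC)) hc₂.le) measureReal_nonneg
  have hsum : ∑ m ∈ Finset.range (N + 1), P.real (B m) ≤ 1 := by
    rw [← measureReal_biUnion_finset]
    · exact measureReal_le_one
    · intro m _ m' _ hne
      rw [Function.onFun, Set.disjoint_left]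
      rintro ω ⟨_, h1⟩ ⟨_, h2⟩
      exact hne ((show q j ω = m from h1).symm.trans h2)
    · intro m _
      exact hBm' m
  have h0 : 0 ≤ c₂ * T (cc C * aa j) := mul_nonneg hc₂.le (hT0 _)
  calc P.real (GG q C j ∩ {ω | q j ω + ht C j < q (j + 1) ω})
      ≤ P.real (⋃ m ∈ Finset.range (N + 1), (B m ∩ {ω | m + ht C j < q (j + 1) ω})) :=
        measureReal_mono hsub (measure_ne_top _ _)
    _ ≤ ∑ m ∈ Finset.range (N + 1), P.real (B m ∩ {ω | m + ht C j < q (j + 1) ω}) :=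
        measureReal_biUnion_finset_le _ _
    _ ≤ ∑ m ∈ Finset.range (N + 1), c₂ * T (cc C * aa j) * P.real (B m) :=
        Finset.sum_le_sum fun m _ => hterm m
    _ = c₂ * T (cc C * aa j) * ∑ m ∈ Finset.range (N + 1), P.real (B m) :=
        (Finset.mul_sum _ _ _).symm
    _ ≤ c₂ * T (cc C * aa j) * 1 := mul_le_mul_of_nonneg_left hsum h0
    _ = c₂ * T (cc C * aa j) := mul_one _

theorem upp (hSUM : S_SUM) : S_UPP := by
  intro Ω mΩ P _ ℱ q T hT hT0 hG hsum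
  obtain ⟨c₁, c₂, -, hc₂, M, htail⟩ := hG.tail
  have ht' : ∀ j m h : ℕ, M ≤ m → ∀ B : Set Ω, MeasurableSet[ℱ j] B → B ⊆ {ω | q j ω = m} →
      P.real (B ∩ {ω | m + h < q (j + 1) ω}) ≤ c₂ * T (h / sc m) * P.real B :=
    fun j m h hm B h1 h2 => (htail j m h hm B h1 h2).2
  have hBC : ∀ C : ℕ, ∀ᵐ ω ∂P, 1 ≤ C → ∀ᶠ j : ℕ in atTop,
      ω ∉ GG q C j ∩ {ω | q j ω + ht C j < q (j + 1) ω} := by
    intro C
    rcases Nat.lt_or_ge C 1 with h0 | hC
    · exact Eventually.of_forall fun ω h => absurd h (by omega)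
    have hs : Summable fun j : ℕ =>
        P.real (GG q C j ∩ {ω | q j ω + ht C j < q (j + 1) ω}) := by
      refine Summable.of_norm_bounded_eventually_nat
        (((hSUM T hT hT0 (cc C) (cc_pos hC)).2 hsum).mul_left c₂) ?_
      filter_upwards [eventually_ge_atTop C, eventually_ge_atTop M] with j h1 h2
      rw [Real.norm_of_nonneg measureReal_nonneg]
      exact prob_le hT hT0 hG.meas hG.strict hc₂ ht' hC h1 h2
    have h1 : ∑' j : ℕ, P (GG q C j ∩ {ω | q j ω + ht C j < q (j + 1) ω}) ≠ ⊤ := by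
      have h2 := hs.tsum_ofReal_ne_top
      have h3 : (fun j : ℕ => ENNReal.ofReal
          (P.real (GG q C j ∩ {ω | q j ω + ht C j < q (j + 1) ω}))) =
          fun j : ℕ => P (GG q C j ∩ {ω | q j ω + ht C j < q (j + 1) ω}) :=
        funext fun j => ofReal_measureReal (measure_ne_top _ _)
      rw [h3] at h2
      exact h2
    filter_upwards [ae_eventually_notMem h1] with ω h _
    exact h
  filter_upwards [ae_all_iff.2 hBC, hG.order] with ω h1 ⟨C, hC, h2⟩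
  obtain ⟨C', hC'⟩ := exists_nat_ge (max C 1)
  have hCC : C ≤ (C' : ℝ) := (le_max_left _ _).trans hC'
  have hC1 : (1 : ℝ) ≤ C' := (le_max_right _ _).trans hC'
  have hC1' : 1 ≤ C' := by exact_mod_cast hC1
  have hC0 : (0 : ℝ) < C' := by linarith
  filter_upwards [h1 C' hC1', h2] with j h3 ⟨h4, h5⟩
  by_contra hcon
  rw [not_le] at hcon
  apply h3
  have hq0 : (0 : ℝ) ≤ q j ω := Nat.cast_nonneg _
  have hjs : 0 ≤ (j : ℝ) * sc j := mul_nonneg (Nat.cast_nonneg _) (sc_pos j).le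
  have h6 : (j : ℝ) * sc j ≤ C' * q j ω := h4.trans (mul_le_mul_of_nonneg_right hCC hq0)
  refine ⟨⟨h6, h5.trans (mul_le_mul_of_nonneg_right hCC hjs)⟩, ?_⟩
  show q j ω + ht C' j < q (j + 1) ω
  have h7 : (ht C' j : ℝ) ≤ 4 * (q j ω : ℝ) ^ (4 / 5 : ℝ) := by
    refine (Nat.floor_le (by positivity)).trans ?_
    have h8 : (j : ℝ) * sc j / C' ≤ q j ω := by
      rw [div_le_iff₀ hC0]
      linarith
    exact mul_le_mul_of_nonneg_left
      (Real.rpow_le_rpow (div_nonneg hjs hC0.le) h8 (by norm_num)) (by norm_num)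
  have h9 : (q j ω : ℝ) + ht C' j < q (j + 1) ω := by linarith
  exact_mod_cast h9

end Pool.Agent.H82.GM
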